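import Mathlib

set_option autoImplicit false

namespace Pool.Agent.H67L

/-- bounded support -/
def Bdd {T : Type} [LinearOrder T] (f : T ≃o T) : Prop :=
  ∃ t₁ t₂ : T, (∀ s, s < t₁ → f s = s) ∧ ∀ s, t₂ < s → f s = s

/-- two-transitivity by automorphisms of bounded support -/
def TwoTr (T : Type) [LinearOrder T] : Prop :=
  ∀ r₁ r₂ s₁ s₂ : T, r₁ < r₂ → s₁ < s₂ → ∃ f : T ≃o T, Bdd f ∧ f r₁ = s₁ ∧ f r₂ = s₂

/-! ### piecewise linear maps of the rationals -/

/-- the piecewise linear map with `a ↦ a`, `r ↦ s`, `b ↦ b` -/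
def pl (a b r s x : ℚ) : ℚ :=
  if x ≤ a then x else if x ≤ r then a + (x - a) * ((s - a) / (r - a)) else
    if x ≤ b then b - (b - x) * ((b - s) / (b - r)) else x

theorem pl_strictMono {a b r s : ℚ} (har : a < r) (hrb : r < b) (has : a < s) (hsb : s < b) :
    StrictMono (pl a b r s) := by
  have k1 : 0 < (s - a) / (r - a) := div_pos (by linarith) (by linarith)
  have k2 : 0 < (b - s) / (b - r) := div_pos (by linarith) (by linarith)
  have e1 : (r - a) * ((s - a) / (r - a)) = s - a := mul_div_cancel₀ _ (by linarith)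
  have e2 : (b - r) * ((b - s) / (b - r)) = b - s := mul_div_cancel₀ _ (by linarith)
  intro x y hxy
  unfold pl
  set p := (s - a) / (r - a)
  set q := (b - s) / (b - r)
  split_ifs <;> first | linarith | nlinarith

theorem pl_inv {a b r s : ℚ} (har : a < r) (hrb : r < b) (has : a < s) (hsb : s < b) (x : ℚ) :
    pl a b s r (pl a b r s x) = x := by
  have k1 : 0 < (s - a) / (r - a) := div_pos (by linarith) (by linarith)
  have k2 : 0 < (b - s) / (b - r) := div_pos (by linarith) (by linarith)
  have e1 : (r - a) * ((s - a) / (r - a)) = s - a := mul_div_cancel₀ _ (by linarith)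
  have e2 : (b - r) * ((b - s) / (b - r)) = b - s := mul_div_cancel₀ _ (by linarith)
  have e3 : ((s - a) / (r - a)) * ((r - a) / (s - a)) = 1 := by
    rw [div_mul_div_comm, mul_comm (r - a), div_self]
    exact mul_ne_zero (by linarith) (by linarith)
  have e4 : ((b - s) / (b - r)) * ((b - r) / (b - s)) = 1 := by
    rw [div_mul_div_comm, mul_comm (b - r), div_self]
    exact mul_ne_zero (by linarith) (by linarith)
  by_cases h1 : x ≤ a
  · have : pl a b r s x = x := by simp [pl, h1]
    rw [this]; simp [pl, h1]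
  · by_cases h2 : x ≤ r
    · have : pl a b r s x = a + (x - a) * ((s - a) / (r - a)) := by simp [pl, h1, h2]
      rw [this]
      set p := (s - a) / (r - a)
      have hxa : 0 < x - a := by linarith
      have c1 : ¬ (a + (x - a) * p ≤ a) := by
        have := mul_pos hxa k1
        linarith
      have c2 : a + (x - a) * p ≤ s := by nlinarith
      simp only [pl, c1, c2, if_true, if_false]
      have : a + (x - a) * p - a = (x - a) * p := by ring
      rw [this, mul_assoc, e3]; ring
    · by_cases h3 : x ≤ b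
      · have : pl a b r s x = b - (b - x) * ((b - s) / (b - r)) := by simp [pl, h1, h2, h3]
        rw [this]
        set q := (b - s) / (b - r)
        have hbx : 0 ≤ b - x := by linarith
        have c1 : ¬ (b - (b - x) * q ≤ a) := by nlinarith
        have c2 : ¬ (b - (b - x) * q ≤ s) := by nlinarith
        have c3 : b - (b - x) * q ≤ b := by
          have := mul_nonneg hbx k2.le
          linarith
        simp only [pl, c1, c2, c3, if_true, if_false]
        have : b - (b - (b - x) * q) = (b - x) * q := by ring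
        rw [this, mul_assoc, e4]; ring
      · have : pl a b r s x = x := by simp [pl, h1, h2, h3]
        rw [this]
        have g2 : ¬ x ≤ s := by linarith
        simp [pl, h1, g2, h3]

/-- `pl` as an automorphism -/
def plIso {a b r s : ℚ} (har : a < r) (hrb : r < b) (has : a < s) (hsb : s < b) : ℚ ≃o ℚ :=
  StrictMono.orderIsoOfRightInverse (pl a b r s) (pl_strictMono har hrb has hsb) (pl a b s r)
    (fun x => pl_inv has hsb har hrb x)

theorem plIso_apply {a b r s : ℚ} (har : a < r) (hrb : r < b) (has : a < s) (hsb : s < b) (x : ℚ) :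
    plIso har hrb has hsb x = pl a b r s x := rfl

theorem exists_move {a b r s : ℚ} (har : a < r) (hrb : r < b) (has : a < s) (hsb : s < b) :
    ∃ f : ℚ ≃o ℚ, (∀ x ≤ a, f x = x) ∧ (∀ x, b < x → f x = x) ∧ f r = s := by
  refine ⟨plIso har hrb has hsb, fun x hx => ?_, fun x hx => ?_, ?_⟩
  · rw [plIso_apply]; simp [pl, hx]
  · rw [plIso_apply]
    have h1 : ¬ x ≤ a := by linarith
    have h2 : ¬ x ≤ r := by linarith
    have h3 : ¬ x ≤ b := by linarith
    simp [pl, h1, h2, h3]
  · rw [plIso_apply]
    have h1 : ¬ r ≤ a := by linarith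
    simp only [pl, h1, le_refl, if_true, if_false]
    rw [mul_div_cancel₀ _ (by linarith)]; ring

theorem twoTr_rat : TwoTr ℚ := by
  intro r₁ r₂ s₁ s₂ hr hs
  obtain ⟨f, f1, f2, f3⟩ := exists_move (a := min r₁ s₁ - 1) (b := max r₁ s₁ + 1) (r := r₁) (s := s₁)
    (by have := min_le_left r₁ s₁; linarith) (by have := le_max_left r₁ s₁; linarith)
    (by have := min_le_right r₁ s₁; linarith) (by have := le_max_right r₁ s₁; linarith)
  have h1 : s₁ < f r₂ := by rw [← f3]; exact f.strictMono hr
  obtain ⟨g, g1, g2, g3⟩ := exists_move (a := s₁) (b := max (f r₂) s₂ + 1) (r := f r₂) (s := s₂)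
    h1 (by have := le_max_left (f r₂) s₂; linarith)
    hs (by have := le_max_right (f r₂) s₂; linarith)
  refine ⟨f.trans g, ⟨min (min r₁ s₁ - 1) s₁, max (max r₁ s₁ + 1) (max (f r₂) s₂ + 1), ?_, ?_⟩, ?_, ?_⟩
  · intro x hx
    have e1 : f x = x := f1 x (le_trans hx.le (min_le_left _ _))
    show g (f x) = x
    rw [e1]
    exact g1 x (le_trans hx.le (min_le_right _ _))
  · intro x hx
    have e1 : f x = x := f2 x (lt_of_le_of_lt (le_max_left _ _) hx)
    show g (f x) = x
    rw [e1]
    exact g2 x (lt_of_le_of_lt (le_max_right _ _) hx)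
  · show g (f r₁) = s₁
    rw [f3]; exact g1 s₁ le_rfl
  · exact g3

/-! ### the ultrapower -/

open Filter

/-- the ultrapower -/
abbrev UP (T : Type) : Type := (hyperfilter ℕ : Filter ℕ).Germ T

section Ultra

variable {T : Type} [LinearOrder T]

/-- the map of the ultrapower given by a sequence of automorphisms -/
noncomputable def gfun (F : ℕ → (T ≃o T)) : UP T → UP T :=
  Quotient.map' (fun x n => F n (x n)) (by
    intro x y h
    filter_upwards [h] with n hn
    show F n (x n) = F n (y n)
    rw [hn])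

theorem gfun_coe (F : ℕ → (T ≃o T)) (x : ℕ → T) : gfun F (x : UP T) = ((fun n => F n (x n) : ℕ → T) : UP T) :=
  rfl

theorem gfun_comp (F G : ℕ → (T ≃o T)) (x : UP T) : gfun F (gfun G x) = gfun (fun n => F n * G n) x := by
  induction x using Filter.Germ.inductionOn with
  | _ x => rfl

theorem gfun_one (x : UP T) : gfun (fun _ => (1 : T ≃o T)) x = x := by
  induction x using Filter.Germ.inductionOn with
  | _ x => rfl

/-- as an automorphism -/
noncomputable def gmap (F : ℕ → (T ≃o T)) : UP T ≃o UP T where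
  toFun := gfun F
  invFun := gfun (fun n => (F n)⁻¹)
  left_inv x := by
    rw [gfun_comp]
    simp only [inv_mul_cancel]
    exact gfun_one x
  right_inv x := by
    rw [gfun_comp]
    simp only [mul_inv_cancel]
    exact gfun_one x
  map_rel_iff' := by
    intro x y
    induction x using Filter.Germ.inductionOn with
    | _ x =>
      induction y using Filter.Germ.inductionOn with
      | _ y =>
        show gfun F (x : UP T) ≤ gfun F (y : UP T) ↔ (x : UP T) ≤ (y : UP T)
        rw [gfun_coe, gfun_coe, Filter.Germ.coe_le, Filter.Germ.coe_le]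
        constructor
        · intro h
          filter_upwards [h] with n hn
          exact (F n).le_iff_le.1 hn
        · intro h
          filter_upwards [h] with n hn
          exact (F n).le_iff_le.2 hn

theorem gmap_apply (F : ℕ → (T ≃o T)) (x : ℕ → T) :
    gmap F (x : UP T) = ((fun n => F n (x n) : ℕ → T) : UP T) := rfl

/-- the diagonal extension -/
noncomputable def E : (T ≃o T) →* (UP T ≃o UP T) where
  toFun f := gmap (fun _ => f)
  map_one' := by
    ext x
    induction x using Filter.Germ.inductionOn with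
    | _ x => rfl
  map_mul' f g := by
    ext x
    induction x using Filter.Germ.inductionOn with
    | _ x => rfl

/-- the diagonal embedding -/
noncomputable def io (t : T) : UP T := (t : UP T)

theorem io_strictMono : StrictMono (io : T → UP T) := by
  intro s t h
  exact Filter.Germ.const_lt h

theorem E_io (f : T ≃o T) (t : T) : E f (io t) = io (f t) := rfl

theorem E_apply (f : T ≃o T) (x : ℕ → T) : E f (x : UP T) = ((fun n => f (x n) : ℕ → T) : UP T) := rfl

theorem lt_coe (x y : ℕ → T) : (x : UP T) < (y : UP T) ↔ ∀ᶠ n in (hyperfilter ℕ : Filter ℕ), x n < y n :=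
  Filter.Germ.coe_lt

theorem bdd_gmap (F : ℕ → (T ≃o T)) (hF : ∀ n, Bdd (F n)) : Bdd (gmap F) := by
  choose a b ha hb using hF
  refine ⟨(a : UP T), (b : UP T), ?_, ?_⟩
  · intro s hs
    induction s using Filter.Germ.inductionOn with
    | _ s =>
      rw [lt_coe] at hs
      rw [gmap_apply]
      apply Filter.Germ.coe_eq.2
      filter_upwards [hs] with n hn
      exact ha n _ hn
  · intro s hs
    induction s using Filter.Germ.inductionOn with
    | _ s =>
      rw [lt_coe] at hs
      rw [gmap_apply]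
      apply Filter.Germ.coe_eq.2
      filter_upwards [hs] with n hn
      exact hb n _ hn

theorem E_fix_lt (f : T ≃o T) (t : T) (h : ∀ s, s < t → f s = s) (s : UP T) (hs : s < io t) :
    E f s = s := by
  induction s using Filter.Germ.inductionOn with
  | _ s =>
    have hs' : ∀ᶠ n in (hyperfilter ℕ : Filter ℕ), s n < t := Filter.Germ.coe_lt.1 hs
    rw [E_apply]
    apply Filter.Germ.coe_eq.2
    filter_upwards [hs'] with n hn
    exact h _ hn

theorem E_fix_gt (f : T ≃o T) (t : T) (h : ∀ s, t < s → f s = s) (s : UP T) (hs : io t < s) :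
    E f s = s := by
  induction s using Filter.Germ.inductionOn with
  | _ s =>
    have hs' : ∀ᶠ n in (hyperfilter ℕ : Filter ℕ), t < s n := Filter.Germ.coe_lt.1 hs
    rw [E_apply]
    apply Filter.Germ.coe_eq.2
    filter_upwards [hs'] with n hn
    exact h _ hn

theorem twoTr_UP (hT : TwoTr T) : TwoTr (UP T) := by
  classical
  intro r₁ r₂ s₁ s₂ hr hs
  induction r₁ using Filter.Germ.inductionOn with
  | _ r₁ =>
  induction r₂ using Filter.Germ.inductionOn with
  | _ r₂ =>
  induction s₁ using Filter.Germ.inductionOn with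
  | _ s₁ =>
  induction s₂ using Filter.Germ.inductionOn with
  | _ s₂ =>
    rw [lt_coe] at hr hs
    have key : ∀ n, ∃ f : T ≃o T, Bdd f ∧ (r₁ n < r₂ n → s₁ n < s₂ n → f (r₁ n) = s₁ n ∧ f (r₂ n) = s₂ n) := by
      intro n
      by_cases h : r₁ n < r₂ n ∧ s₁ n < s₂ n
      · obtain ⟨f, h1, h2, h3⟩ := hT _ _ _ _ h.1 h.2
        exact ⟨f, h1, fun _ _ => ⟨h2, h3⟩⟩
      · exact ⟨1, ⟨r₁ n, r₁ n, fun _ _ => rfl, fun _ _ => rfl⟩, fun h1 h2 => absurd ⟨h1, h2⟩ h⟩
    choose F hF1 hF2 using key
    refine ⟨gmap F, bdd_gmap F hF1, ?_, ?_⟩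
    · rw [gmap_apply]
      apply Filter.Germ.coe_eq.2
      filter_upwards [hr, hs] with n h1 h2
      exact (hF2 n h1 h2).1
    · rw [gmap_apply]
      apply Filter.Germ.coe_eq.2
      filter_upwards [hr, hs] with n h1 h2
      exact (hF2 n h1 h2).2

end Ultra

/-! ### cutting an automorphism along an invariant convex set -/

section Cut

variable {T : Type} [LinearOrder T]

theorem cut_mono (F : T ≃o T) (hF : ∀ t, t ≤ F t) (A : Set T) (hA : A.OrdConnected)
    (hinv : ∀ t, F t ∈ A ↔ t ∈ A) (p : Prop) [Decidable p] [DecidablePred (· ∈ A)] :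
    StrictMono (fun t => if (t ∈ A ↔ p) then F t else t) := by
  intro x y hxy
  have hFx := hF x
  have hFy := hF y
  have hFxy : F x < F y := F.strictMono hxy
  by_cases hp : p
  · by_cases hx : x ∈ A <;> by_cases hy : y ∈ A <;> simp only [hx, hy, hp, iff_true, iff_false, if_true, if_false, not_true_eq_false]
    · exact hFxy
    · -- x in A, y not in A
      by_contra hcon
      exact hy (hA.out hx ((hinv x).2 hx) ⟨hxy.le, not_lt.1 hcon⟩)
    · exact lt_of_lt_of_le hxy hFy
    · exact hxy
  · by_cases hx : x ∈ A <;> by_cases hy : y ∈ A <;> simp only [hx, hy, hp, iff_false, iff_true, if_true, if_false, not_true_eq_false, not_false_eq_true]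
    · exact hxy
    · exact lt_of_lt_of_le hxy hFy
    · -- x not in A, y in A
      by_contra hcon
      have h1 : F.symm y ≤ x := by
        rw [F.symm_apply_le]
        exact not_lt.1 hcon
      have h2 : F.symm y ∈ A := by
        rw [← hinv, F.apply_symm_apply]; exact hy
      exact hx (hA.out h2 hy ⟨h1, hxy.le⟩)
    · exact hFxy

/-- the automorphism that agrees with `F` where membership in `A` is equivalent to `p` -/
noncomputable def cutIso (F : T ≃o T) (hF : ∀ t, t ≤ F t) (A : Set T) (hA : A.OrdConnected)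
    (hinv : ∀ t, F t ∈ A ↔ t ∈ A) (p : Prop) [Decidable p] [DecidablePred (· ∈ A)] : T ≃o T :=
  StrictMono.orderIsoOfRightInverse (fun t => if (t ∈ A ↔ p) then F t else t)
    (cut_mono F hF A hA hinv p) (fun t => if (t ∈ A ↔ p) then F.symm t else t) (by
      intro t
      have h : F.symm t ∈ A ↔ t ∈ A := by
        rw [← hinv, F.apply_symm_apply]
      by_cases hp : (t ∈ A ↔ p)
      · simp only [hp, if_true]
        rw [if_pos (h.trans hp), F.apply_symm_apply]
      · simp only [hp, if_false])

theorem cutIso_apply (F : T ≃o T) (hF : ∀ t, t ≤ F t) (A : Set T) (hA : A.OrdConnected)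
    (hinv : ∀ t, F t ∈ A ↔ t ∈ A) (p : Prop) [Decidable p] [DecidablePred (· ∈ A)] (t : T) :
    cutIso F hF A hA hinv p t = if (t ∈ A ↔ p) then F t else t := rfl

end Cut

/-- every positive bounded automorphism splits in the ultrapower -/
theorem split {T : Type} [LinearOrder T] (f : T ≃o T) (hf : ∀ t, t ≤ f t) (hf1 : f ≠ 1) (hb : Bdd f) :
    ∃ g₁ g₂ : UP T ≃o UP T, Bdd g₁ ∧ Bdd g₂ ∧ g₁ ≠ 1 ∧ g₂ ≠ 1 ∧ (∀ t, min (g₁ t) (g₂ t) = t) ∧
      ∀ t, max (g₁ t) (g₂ t) = E f t := by
  classical
  obtain ⟨t, ht⟩ : ∃ t, t < f t := by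
    by_contra hcon
    push Not at hcon
    apply hf1
    ext t
    exact le_antisymm (hcon t) (hf t)
  have hF : ∀ x : UP T, x ≤ E f x := by
    intro x
    induction x using Filter.Germ.inductionOn with
    | _ x =>
      rw [E_apply]
      apply Filter.Germ.coe_le.2
      exact Filter.Eventually.of_forall fun n => hf _
  have hpow : ∀ k : ℕ, ∀ s, s ≤ (f ^ k) s := by
    intro k
    induction k with
    | zero => intro s; rfl
    | succ k ih =>
      intro s
      rw [pow_succ']
      exact le_trans (ih s) (hf _)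
  -- the component of `t`
  let A : Set (UP T) := {x | ∃ k : ℕ, io ((f ^ k)⁻¹ t) ≤ x ∧ x ≤ io ((f ^ k) t)}
  have hmono : ∀ {k l : ℕ}, k ≤ l → (f ^ k) t ≤ (f ^ l) t := by
    intro k l hkl
    obtain ⟨m, rfl⟩ := Nat.exists_eq_add_of_le hkl
    rw [pow_add]
    exact (f ^ k).monotone (hpow m t)
  have hmono' : ∀ {k l : ℕ}, k ≤ l → (f ^ l)⁻¹ t ≤ (f ^ k)⁻¹ t := by
    intro k l hkl
    obtain ⟨m, rfl⟩ := Nat.exists_eq_add_of_le hkl
    rw [pow_add, mul_inv_rev]
    show (f ^ m)⁻¹ ((f ^ k)⁻¹ t) ≤ (f ^ k)⁻¹ t
    have := hpow m ((f ^ m)⁻¹ ((f ^ k)⁻¹ t))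
    refine le_trans this (le_of_eq ?_)
    exact (f ^ m).apply_symm_apply _
  have hA : A.OrdConnected := by
    refine ⟨fun x hx y hy z hz => ?_⟩
    obtain ⟨k, hk, -⟩ := hx
    obtain ⟨l, -, hl⟩ := hy
    refine ⟨max k l, ?_, ?_⟩
    · exact le_trans (le_trans (io_strictMono.monotone (hmono' (le_max_left k l))) hk) hz.1
    · exact le_trans hz.2 (le_trans hl (io_strictMono.monotone (hmono (le_max_right k l))))
  have hinv : ∀ x, E f x ∈ A ↔ x ∈ A := by
    intro x
    constructor
    · rintro ⟨k, h1, h2⟩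
      refine ⟨k + 1, ?_, le_trans (hF x) (le_trans h2 (io_strictMono.monotone (hmono (Nat.le_succ k))))⟩
      rw [← (E f).le_iff_le, E_io]
      refine le_trans (le_of_eq ?_) h1
      congr 1
      rw [pow_succ, mul_inv_rev]
      exact f.apply_symm_apply _
    · rintro ⟨k, h1, h2⟩
      refine ⟨k + 1, le_trans (le_trans (io_strictMono.monotone (hmono' (Nat.le_succ k))) h1) (hF x), ?_⟩
      have := (E f).monotone h2
      refine le_trans this (le_of_eq ?_)
      rw [E_io, pow_succ']
      rfl
  obtain ⟨a, b, ha, hb'⟩ := hb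
  refine ⟨cutIso (E f) hF A hA hinv True, cutIso (E f) hF A hA hinv False, ?_, ?_, ?_, ?_, ?_, ?_⟩
  · refine ⟨io a, io b, fun s hs => ?_, fun s hs => ?_⟩
    · rw [cutIso_apply, E_fix_lt f a ha s hs, ite_self]
    · rw [cutIso_apply, E_fix_gt f b hb' s hs, ite_self]
  · refine ⟨io a, io b, fun s hs => ?_, fun s hs => ?_⟩
    · rw [cutIso_apply, E_fix_lt f a ha s hs, ite_self]
    · rw [cutIso_apply, E_fix_gt f b hb' s hs, ite_self]
  · intro h
    have h1 : io t ∈ A := ⟨0, le_rfl, le_rfl⟩
    have h2 := DFunLike.congr_fun h (io t)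
    rw [cutIso_apply, if_pos (by simpa using h1), E_io] at h2
    exact ht.ne' (io_strictMono.injective h2)
  · intro h
    let y : UP T := ((fun n => (f ^ n) t : ℕ → T) : UP T)
    have h1 : y ∉ A := by
      rintro ⟨k, -, hk⟩
      have h3 : ∀ᶠ n in (hyperfilter ℕ : Filter ℕ), (f ^ n) t ≤ (f ^ k) t := Filter.Germ.coe_le.1 hk
      have h4 : ∀ᶠ n in (hyperfilter ℕ : Filter ℕ), k < n := by
        have : (hyperfilter ℕ : Filter ℕ) ≤ atTop := by
          rw [← Nat.cofinite_eq_atTop]
          exact hyperfilter_le_cofinite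
        exact this (eventually_gt_atTop k)
      obtain ⟨n, h5, h6⟩ := (h3.and h4).exists
      have h7 : (f ^ k) t < (f ^ n) t := by
        refine lt_of_lt_of_le ?_ (hmono h6)
        rw [pow_succ']
        show (f ^ k) t < f ((f ^ k) t)
        have : f ((f ^ k) t) = (f ^ k) (f t) := by
          have := congrArg (fun g : T ≃o T => g t) ((pow_succ' f k).symm.trans (pow_succ f k))
          exact this
        rw [this]
        exact (f ^ k).strictMono ht
      exact absurd h5 (not_le.2 h7)
    have h2 := DFunLike.congr_fun h y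
    rw [cutIso_apply, if_pos (by simpa using h1)] at h2
    have h3 : E f y = y := h2
    rw [E_apply] at h3
    have h4 := Filter.Germ.coe_eq.1 h3
    obtain ⟨n, h5⟩ := h4.exists
    have h6 : (f ^ n) t < f ((f ^ n) t) := by
      have : f ((f ^ n) t) = (f ^ n) (f t) := by
        have := congrArg (fun g : T ≃o T => g t) ((pow_succ' f n).symm.trans (pow_succ f n))
        exact this
      rw [this]
      exact (f ^ n).strictMono ht
    exact absurd h5 h6.ne'
  · intro x
    rw [cutIso_apply, cutIso_apply]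
    by_cases hx : x ∈ A <;> simp [hx, hF x]
  · intro x
    rw [cutIso_apply, cutIso_apply]
    by_cases hx : x ∈ A <;> simp [hx, hF x]

end Pool.Agent.H67L
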