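import Mathlib
import Pool.Agent.H67L.PL

set_option autoImplicit false

namespace Pool.Agent.H67L

/-! ### direct systems of chains with automorphisms -/

/-- a direct system of chains, with compatible extensions of automorphisms -/
structure Sys where
  T : ℕ → Type
  lo : ∀ n, LinearOrder (T n)
  ι : ∀ n, T n → T (n + 1)
  hι : ∀ n, StrictMono (ι n)
  E : ∀ n, (T n ≃o T n) →* (T (n + 1) ≃o T (n + 1))
  hE : ∀ n (f : T n ≃o T n) (t : T n), E n f (ι n t) = ι n (f t)

attribute [instance] Sys.lo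

namespace Sys

variable (S : Sys)

/-- eventually coherent sequences -/
def CohT : Type := {x : ∀ n, S.T n // ∃ N, ∀ n, N ≤ n → x (n + 1) = S.ι n (x n)}

/-- eventual equality -/
def cohSetoid : Setoid S.CohT where
  r x y := ∃ N, ∀ n, N ≤ n → x.1 n = y.1 n
  iseqv :=
    { refl := fun _ => ⟨0, fun _ _ => rfl⟩
      symm := fun ⟨N, h⟩ => ⟨N, fun n hn => (h n hn).symm⟩
      trans := fun ⟨N, h⟩ ⟨M, k⟩ => ⟨max N M, fun n hn =>
        (h n (le_trans (le_max_left _ _) hn)).trans (k n (le_trans (le_max_right _ _) hn))⟩ }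

/-- the direct limit -/
def Lim : Type := Quotient S.cohSetoid

variable {S}

/-- the class of a sequence -/
def mkL (x : S.CohT) : S.Lim := Quotient.mk S.cohSetoid x

theorem mkL_eq (x y : S.CohT) : mkL x = mkL y ↔ ∃ N, ∀ n, N ≤ n → x.1 n = y.1 n :=
  ⟨fun h => Quotient.exact h, fun h => Quotient.sound h⟩

theorem mkL_surj (x : S.Lim) : ∃ y, mkL y = x := by
  induction x using Quotient.inductionOn with
  | _ x => exact ⟨x, rfl⟩

/-- the order -/
def leL (x y : S.Lim) : Prop :=
  Quotient.liftOn₂ x y (fun x y => ∃ N, ∀ n, N ≤ n → x.1 n ≤ y.1 n) (by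
    rintro x y x' y' ⟨N, hN⟩ ⟨M, hM⟩
    apply propext
    constructor
    · rintro ⟨K, hK⟩
      refine ⟨max (max N M) K, fun n hn => ?_⟩
      have h1 : N ≤ n := le_trans (le_trans (le_max_left _ _) (le_max_left _ _)) hn
      have h2 : M ≤ n := le_trans (le_trans (le_max_right _ _) (le_max_left _ _)) hn
      rw [← hN n h1, ← hM n h2]
      exact hK n (le_trans (le_max_right _ _) hn)
    · rintro ⟨K, hK⟩
      refine ⟨max (max N M) K, fun n hn => ?_⟩
      have h1 : N ≤ n := le_trans (le_trans (le_max_left _ _) (le_max_left _ _)) hn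
      have h2 : M ≤ n := le_trans (le_trans (le_max_right _ _) (le_max_left _ _)) hn
      rw [hN n h1, hM n h2]
      exact hK n (le_trans (le_max_right _ _) hn))

theorem le_propagate (u v : ∀ n, S.T n) (K : ℕ) (hu : ∀ n, K ≤ n → u (n + 1) = S.ι n (u n))
    (hv : ∀ n, K ≤ n → v (n + 1) = S.ι n (v n)) (h0 : u K ≤ v K) (n : ℕ) (hn : K ≤ n) :
    u n ≤ v n := by
  induction n, hn using Nat.le_induction with
  | base => exact h0
  | succ n hn ih =>
    rw [hu n hn, hv n hn]
    exact (S.hι n).monotone ih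

theorem lt_propagate (u v : ∀ n, S.T n) (K : ℕ) (hu : ∀ n, K ≤ n → u (n + 1) = S.ι n (u n))
    (hv : ∀ n, K ≤ n → v (n + 1) = S.ι n (v n)) (h0 : u K < v K) (n : ℕ) (hn : K ≤ n) :
    u n < v n := by
  induction n, hn using Nat.le_induction with
  | base => exact h0
  | succ n hn ih =>
    rw [hu n hn, hv n hn]
    exact S.hι n ih

theorem total_aux (x y : S.CohT) :
    (∃ N, ∀ n, N ≤ n → x.1 n ≤ y.1 n) ∨ (∃ N, ∀ n, N ≤ n → y.1 n ≤ x.1 n) := by
  obtain ⟨N, hN⟩ := x.2
  obtain ⟨M, hM⟩ := y.2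
  rcases le_total (x.1 (max N M)) (y.1 (max N M)) with h | h
  · exact Or.inl ⟨max N M, le_propagate _ _ _ (fun n hn => hN n (le_trans (le_max_left _ _) hn))
      (fun n hn => hM n (le_trans (le_max_right _ _) hn)) h⟩
  · exact Or.inr ⟨max N M, le_propagate _ _ _ (fun n hn => hM n (le_trans (le_max_right _ _) hn))
      (fun n hn => hN n (le_trans (le_max_left _ _) hn)) h⟩

/-- the linear order on the limit -/
noncomputable instance ordL : LinearOrder S.Lim where
  le := leL
  le_refl x := by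
    induction x using Quotient.inductionOn with
    | _ x => exact ⟨0, fun _ _ => le_rfl⟩
  le_trans x y z := by
    induction x using Quotient.inductionOn with
    | _ x =>
    induction y using Quotient.inductionOn with
    | _ y =>
    induction z using Quotient.inductionOn with
    | _ z =>
      rintro ⟨N, hN⟩ ⟨M, hM⟩
      exact ⟨max N M, fun n hn => le_trans (hN n (le_trans (le_max_left _ _) hn))
        (hM n (le_trans (le_max_right _ _) hn))⟩
  le_antisymm x y := by
    induction x using Quotient.inductionOn with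
    | _ x =>
    induction y using Quotient.inductionOn with
    | _ y =>
      rintro ⟨N, hN⟩ ⟨M, hM⟩
      exact (mkL_eq x y).2 ⟨max N M, fun n hn => le_antisymm (hN n (le_trans (le_max_left _ _) hn))
        (hM n (le_trans (le_max_right _ _) hn))⟩
  le_total x y := by
    induction x using Quotient.inductionOn with
    | _ x =>
    induction y using Quotient.inductionOn with
    | _ y => exact total_aux x y
  toDecidableLE := Classical.decRel _

theorem le_mk (x y : S.CohT) : mkL x ≤ mkL y ↔ ∃ N, ∀ n, N ≤ n → x.1 n ≤ y.1 n := Iff.rfl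

theorem lt_mk (x y : S.CohT) : mkL x < mkL y ↔ ∃ N, ∀ n, N ≤ n → x.1 n < y.1 n := by
  rw [← not_le, le_mk]
  obtain ⟨N, hN⟩ := x.2
  obtain ⟨M, hM⟩ := y.2
  constructor
  · intro h
    rcases lt_or_ge (x.1 (max N M)) (y.1 (max N M)) with h1 | h1
    · exact ⟨max N M, lt_propagate _ _ _ (fun n hn => hN n (le_trans (le_max_left _ _) hn))
        (fun n hn => hM n (le_trans (le_max_right _ _) hn)) h1⟩
    · exact absurd ⟨max N M, le_propagate _ _ _ (fun n hn => hM n (le_trans (le_max_right _ _) hn))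
        (fun n hn => hN n (le_trans (le_max_left _ _) hn)) h1⟩ h
  · rintro ⟨K, hK⟩ ⟨K', hK'⟩
    exact absurd (hK (max K K') (le_max_left _ _)) (not_lt.2 (hK' (max K K') (le_max_right _ _)))

/-- eventually coherent sequences of automorphisms -/
def Coh (g : ∀ n, S.T n ≃o S.T n) : Prop := ∃ N, ∀ n, N ≤ n → g (n + 1) = S.E n (g n)

/-- pointwise action on coherent sequences -/
def ap (g : ∀ n, S.T n ≃o S.T n) (hg : Coh g) (x : S.CohT) : S.CohT :=
  ⟨fun n => g n (x.1 n), by
    obtain ⟨N, hN⟩ := x.2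
    obtain ⟨M, hM⟩ := hg
    refine ⟨max N M, fun n hn => ?_⟩
    show g (n + 1) (x.1 (n + 1)) = S.ι n (g n (x.1 n))
    rw [hN n (le_trans (le_max_left _ _) hn), hM n (le_trans (le_max_right _ _) hn), S.hE]⟩

theorem coh_inv {g : ∀ n, S.T n ≃o S.T n} (hg : Coh g) : Coh (fun n => (g n)⁻¹) := by
  obtain ⟨M, hM⟩ := hg
  refine ⟨M, fun n hn => ?_⟩
  show (g (n + 1))⁻¹ = S.E n (g n)⁻¹
  rw [hM n hn, map_inv]

theorem coh_mul {g h : ∀ n, S.T n ≃o S.T n} (hg : Coh g) (hh : Coh h) :
    Coh (fun n => g n * h n) := by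
  obtain ⟨M, hM⟩ := hg
  obtain ⟨N, hN⟩ := hh
  refine ⟨max M N, fun n hn => ?_⟩
  show g (n + 1) * h (n + 1) = S.E n (g n * h n)
  rw [hM n (le_trans (le_max_left _ _) hn), hN n (le_trans (le_max_right _ _) hn), map_mul]

/-- the automorphism of the limit given by a coherent sequence -/
def act (g : ∀ n, S.T n ≃o S.T n) (hg : Coh g) : S.Lim ≃o S.Lim where
  toFun := Quotient.map (ap g hg) (fun x y ⟨N, h⟩ => ⟨N, fun n hn => by
    show g n (x.1 n) = g n (y.1 n)
    rw [h n hn]⟩)
  invFun := Quotient.map (ap _ (coh_inv hg)) (fun x y ⟨N, h⟩ => ⟨N, fun n hn => by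
    show (g n)⁻¹ (x.1 n) = (g n)⁻¹ (y.1 n)
    rw [h n hn]⟩)
  left_inv x := by
    induction x using Quotient.inductionOn with
    | _ x => exact (mkL_eq _ _).2 ⟨0, fun n _ => (g n).symm_apply_apply _⟩
  right_inv x := by
    induction x using Quotient.inductionOn with
    | _ x => exact (mkL_eq _ _).2 ⟨0, fun n _ => (g n).apply_symm_apply _⟩
  map_rel_iff' := by
    intro x y
    induction x using Quotient.inductionOn with
    | _ x =>
    induction y using Quotient.inductionOn with
    | _ y =>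
      show mkL (ap g hg x) ≤ mkL (ap g hg y) ↔ mkL x ≤ mkL y
      rw [le_mk, le_mk]
      constructor
      · rintro ⟨N, hN⟩
        exact ⟨N, fun n hn => (g n).le_iff_le.1 (hN n hn)⟩
      · rintro ⟨N, hN⟩
        exact ⟨N, fun n hn => (g n).le_iff_le.2 (hN n hn)⟩

theorem act_mk (g : ∀ n, S.T n ≃o S.T n) (hg : Coh g) (x : S.CohT) :
    act g hg (mkL x) = mkL (ap g hg x) := rfl

/-! ### sequences from one term -/

theorem exists_rec {P : ℕ → Type} (d : ∀ n, P n) (s : ∀ n, P n → P (n + 1)) (N : ℕ) (t : P N) :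
    ∃ x : ∀ n, P n, x N = t ∧ ∀ n, N ≤ n → x (n + 1) = s n (x n) := by
  classical
  refine ⟨fun n => if h : N ≤ n then Nat.leRecOn h (fun {k} => s k) t else d n, ?_, ?_⟩
  · simp only [le_refl, dif_pos]
    exact Nat.leRecOn_self t
  · intro n hn
    simp only [hn, dif_pos, le_trans hn (Nat.le_succ n)]
    exact Nat.leRecOn_succ hn t

/-- extend an element of `T N` to a coherent sequence -/
theorem exists_seq (d : ∀ n, S.T n) (N : ℕ) (t : S.T N) :
    ∃ x : S.CohT, x.1 N = t ∧ ∀ n, N ≤ n → x.1 (n + 1) = S.ι n (x.1 n) := by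
  obtain ⟨x, h1, h2⟩ := exists_rec (P := S.T) d (fun n => S.ι n) N t
  exact ⟨⟨x, N, h2⟩, h1, h2⟩

/-- extend an automorphism of `T N` to a coherent sequence -/
theorem exists_seqG (N : ℕ) (f : S.T N ≃o S.T N) :
    ∃ g : ∀ n, S.T n ≃o S.T n, g N = f ∧ ∀ n, N ≤ n → g (n + 1) = S.E n (g n) :=
  exists_rec (P := fun n => S.T n ≃o S.T n) (fun _ => 1) (fun n => S.E n) N f

end Sys

end Pool.Agent.H67L
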