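import Mathlib
import Pool.Agent.H67L.Lim

set_option autoImplicit false

namespace Pool.Agent.H67L

open Sys

/-- pointwise maximum of two automorphisms -/
def supIso {T : Type} [LinearOrder T] (f g : T ≃o T) : T ≃o T :=
  StrictMono.orderIsoOfRightInverse (fun t => max (f t) (g t))
    (fun _ _ h => max_lt_max (f.strictMono h) (g.strictMono h))
    (fun t => min (f.symm t) (g.symm t)) (by
      intro t
      show max (f (min (f.symm t) (g.symm t))) (g (min (f.symm t) (g.symm t))) = t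
      rcases le_total (f.symm t) (g.symm t) with h | h
      · rw [min_eq_left h, f.apply_symm_apply, max_eq_left]
        have := g.monotone h
        rwa [g.apply_symm_apply] at this
      · rw [min_eq_right h, g.apply_symm_apply, max_eq_right]
        have := f.monotone h
        rwa [f.apply_symm_apply] at this)

theorem supIso_apply {T : Type} [LinearOrder T] (f g : T ≃o T) (t : T) :
    supIso f g t = max (f t) (g t) := rfl

theorem Bdd.inv {T : Type} [LinearOrder T] {f : T ≃o T} (h : Bdd f) : Bdd f⁻¹ := by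
  obtain ⟨a, b, ha, hb⟩ := h
  refine ⟨a, b, fun s hs => ?_, fun s hs => ?_⟩
  · have := ha s hs
    show f.symm s = s
    rw [f.symm_apply_eq, this]
  · have := hb s hs
    show f.symm s = s
    rw [f.symm_apply_eq, this]

theorem Bdd.mul {T : Type} [LinearOrder T] {f g : T ≃o T} (h : Bdd f) (k : Bdd g) : Bdd (f * g) := by
  obtain ⟨a, b, ha, hb⟩ := h
  obtain ⟨c, d, hc, hd⟩ := k
  refine ⟨min a c, max b d, fun s hs => ?_, fun s hs => ?_⟩
  · show f (g s) = s
    rw [hc s (lt_of_lt_of_le hs (min_le_right _ _)), ha s (lt_of_lt_of_le hs (min_le_left _ _))]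
  · show f (g s) = s
    rw [hd s (lt_of_le_of_lt (le_max_right _ _) hs), hb s (lt_of_le_of_lt (le_max_left _ _) hs)]

theorem Bdd.sup {T : Type} [LinearOrder T] {f g : T ≃o T} (h : Bdd f) (k : Bdd g) :
    Bdd (supIso f g) := by
  obtain ⟨a, b, ha, hb⟩ := h
  obtain ⟨c, d, hc, hd⟩ := k
  refine ⟨min a c, max b d, fun s hs => ?_, fun s hs => ?_⟩
  · rw [supIso_apply, hc s (lt_of_lt_of_le hs (min_le_right _ _)),
      ha s (lt_of_lt_of_le hs (min_le_left _ _)), max_self]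
  · rw [supIso_apply, hd s (lt_of_le_of_lt (le_max_right _ _) hs),
      hb s (lt_of_le_of_lt (le_max_left _ _) hs), max_self]

/-- the extra properties of the system -/
structure Good (S : Sys) : Prop where
  ne : ∀ n, Nonempty (S.T n)
  three : ∃ a b c : S.T 0, a < b ∧ b < c
  hlt : ∀ n (f : S.T n ≃o S.T n) (t : S.T n), (∀ s, s < t → f s = s) →
    ∀ s, s < S.ι n t → S.E n f s = s
  hgt : ∀ n (f : S.T n ≃o S.T n) (t : S.T n), (∀ s, t < s → f s = s) →
    ∀ s, S.ι n t < s → S.E n f s = s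
  htr : ∀ n, TwoTr (S.T n)
  hsup : ∀ n (f g k : S.T n ≃o S.T n), (∀ t, k t = max (f t) (g t)) →
    ∀ s, S.E n k s = max (S.E n f s) (S.E n g s)
  hinf : ∀ n (f g k : S.T n ≃o S.T n), (∀ t, k t = min (f t) (g t)) →
    ∀ s, S.E n k s = min (S.E n f s) (S.E n g s)
  hsplit : ∀ n (f : S.T n ≃o S.T n), (∀ t, t ≤ f t) → f ≠ 1 → Bdd f →
    ∃ g₁ g₂ : S.T (n + 1) ≃o S.T (n + 1), Bdd g₁ ∧ Bdd g₂ ∧ g₁ ≠ 1 ∧ g₂ ≠ 1 ∧
      (∀ t, min (g₁ t) (g₂ t) = t) ∧ ∀ t, max (g₁ t) (g₂ t) = S.E n f t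

section

variable {S : Sys} (hS : Good S)

/-- coherent from `N` on, and bounded there -/
def From (g : ∀ n, S.T n ≃o S.T n) (N : ℕ) : Prop :=
  (∀ n, N ≤ n → g (n + 1) = S.E n (g n)) ∧ Bdd (g N)

include hS in
theorem From.mono {g : ∀ n, S.T n ≃o S.T n} {N : ℕ} (h : From g N) (M : ℕ) (hM : N ≤ M) :
    From g M := by
  refine ⟨fun n hn => h.1 n (le_trans hM hn), ?_⟩
  induction M, hM using Nat.le_induction with
  | base => exact h.2
  | succ n hn ih =>
    obtain ⟨a, b, ha, hb⟩ := ih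
    rw [h.1 n hn]
    exact ⟨S.ι n a, S.ι n b, hS.hlt n _ a ha, hS.hgt n _ b hb⟩

/-- membership in the group -/
def InL (F : S.Lim ≃o S.Lim) : Prop :=
  ∃ (g : ∀ n, S.T n ≃o S.T n) (hg : Coh g), (∃ N, From g N) ∧ F = act g hg

theorem From.coh {g : ∀ n, S.T n ≃o S.T n} {N : ℕ} (h : From g N) : Coh g := ⟨N, h.1⟩

theorem lim_ext (F G : S.Lim ≃o S.Lim) (h : ∀ x : S.CohT, F (mkL x) = G (mkL x)) : F = G := by
  ext s
  obtain ⟨x, rfl⟩ := mkL_surj s
  exact h x

include hS in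
theorem InL.mul {F G : S.Lim ≃o S.Lim} (hF : InL F) (hG : InL G) : InL (F * G) := by
  obtain ⟨g, hg, ⟨N, hN⟩, rfl⟩ := hF
  obtain ⟨h, hh, ⟨M, hM⟩, rfl⟩ := hG
  refine ⟨fun n => g n * h n, coh_mul hg hh, ⟨max N M, ?_, ?_⟩, ?_⟩
  · intro n hn
    show g (n + 1) * h (n + 1) = S.E n (g n * h n)
    rw [hN.1 n (le_trans (le_max_left _ _) hn), hM.1 n (le_trans (le_max_right _ _) hn), map_mul]
  · exact (hN.mono hS _ (le_max_left _ _)).2.mul (hM.mono hS _ (le_max_right _ _)).2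
  · exact lim_ext _ _ fun x => rfl

theorem InL.inv {F : S.Lim ≃o S.Lim} (hF : InL F) : InL F⁻¹ := by
  obtain ⟨g, hg, ⟨N, hN⟩, rfl⟩ := hF
  refine ⟨fun n => (g n)⁻¹, coh_inv hg, ⟨N, ?_, hN.2.inv⟩, ?_⟩
  · intro n hn
    show (g (n + 1))⁻¹ = S.E n (g n)⁻¹
    rw [hN.1 n hn, map_inv]
  · exact lim_ext _ _ fun x => rfl

include hS in
theorem InL.one : InL (1 : S.Lim ≃o S.Lim) := by
  obtain ⟨t⟩ := hS.ne 0
  refine ⟨fun n => 1, ⟨0, fun n _ => (map_one _).symm⟩, ⟨0, fun n _ => (map_one _).symm,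
    t, t, fun _ _ => rfl, fun _ _ => rfl⟩, ?_⟩
  exact lim_ext _ _ fun x => rfl

theorem max_mk (x y z : S.CohT) (h : ∃ N, ∀ n, N ≤ n → z.1 n = max (x.1 n) (y.1 n)) :
    mkL z = max (mkL x) (mkL y) := by
  obtain ⟨N, hN⟩ := h
  rcases le_total (mkL x) (mkL y) with h | h
  · rw [max_eq_right h]
    obtain ⟨M, hM⟩ := (le_mk x y).1 h
    exact (mkL_eq _ _).2 ⟨max N M, fun n hn => by
      rw [hN n (le_trans (le_max_left _ _) hn), max_eq_right (hM n (le_trans (le_max_right _ _) hn))]⟩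
  · rw [max_eq_left h]
    obtain ⟨M, hM⟩ := (le_mk y x).1 h
    exact (mkL_eq _ _).2 ⟨max N M, fun n hn => by
      rw [hN n (le_trans (le_max_left _ _) hn), max_eq_left (hM n (le_trans (le_max_right _ _) hn))]⟩

theorem min_mk (x y z : S.CohT) (h : ∃ N, ∀ n, N ≤ n → z.1 n = min (x.1 n) (y.1 n)) :
    mkL z = min (mkL x) (mkL y) := by
  obtain ⟨N, hN⟩ := h
  rcases le_total (mkL x) (mkL y) with h | h
  · rw [min_eq_left h]
    obtain ⟨M, hM⟩ := (le_mk x y).1 h
    exact (mkL_eq _ _).2 ⟨max N M, fun n hn => by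
      rw [hN n (le_trans (le_max_left _ _) hn), min_eq_left (hM n (le_trans (le_max_right _ _) hn))]⟩
  · rw [min_eq_right h]
    obtain ⟨M, hM⟩ := (le_mk y x).1 h
    exact (mkL_eq _ _).2 ⟨max N M, fun n hn => by
      rw [hN n (le_trans (le_max_left _ _) hn), min_eq_right (hM n (le_trans (le_max_right _ _) hn))]⟩

include hS in
theorem InL.sup {F G : S.Lim ≃o S.Lim} (hF : InL F) (hG : InL G) :
    ∃ H, InL H ∧ ∀ t, H t = max (F t) (G t) := by
  obtain ⟨g, hg, ⟨N, hN⟩, rfl⟩ := hF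
  obtain ⟨h, hh, ⟨M, hM⟩, rfl⟩ := hG
  have hcoh : ∀ n, max N M ≤ n → supIso (g (n + 1)) (h (n + 1)) = S.E n (supIso (g n) (h n)) := by
    intro n hn
    ext s
    rw [supIso_apply, hS.hsup n (g n) (h n) (supIso (g n) (h n)) (fun t => rfl) s,
      hN.1 n (le_trans (le_max_left _ _) hn), hM.1 n (le_trans (le_max_right _ _) hn)]
  refine ⟨act (fun n => supIso (g n) (h n)) ⟨max N M, hcoh⟩, ⟨_, _, ⟨max N M, hcoh,
    (hN.mono hS _ (le_max_left _ _)).2.sup (hM.mono hS _ (le_max_right _ _)).2⟩, rfl⟩, ?_⟩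
  intro s
  obtain ⟨x, rfl⟩ := mkL_surj s
  rw [act_mk, act_mk, act_mk]
  exact max_mk _ _ _ ⟨0, fun n _ => rfl⟩

include hS in
theorem InL.inf {F G : S.Lim ≃o S.Lim} (hF : InL F) (hG : InL G) :
    ∃ H, InL H ∧ ∀ t, H t = min (F t) (G t) := by
  obtain ⟨H, hH, hmax⟩ := InL.sup hS hF.inv hG.inv
  refine ⟨H⁻¹, hH.inv, fun t => ?_⟩
  show H.symm t = _
  rw [H.symm_apply_eq, hmax]
  show t = max (F.symm (min (F t) (G t))) (G.symm (min (F t) (G t)))
  rcases le_total (F t) (G t) with h | h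
  · rw [min_eq_left h, F.symm_apply_apply, max_eq_left]
    rw [G.symm_apply_le]; exact h
  · rw [min_eq_right h, G.symm_apply_apply, max_eq_right]
    rw [F.symm_apply_le]; exact h

/-- the group -/
def LL : Subgroup (S.Lim ≃o S.Lim) where
  carrier := {F | InL F}
  mul_mem' := fun {_ _} hF hG => InL.mul hS hF hG
  one_mem' := InL.one hS
  inv_mem' := fun {_} hF => InL.inv hF

include hS in
theorem two_transitive (r₁ r₂ s₁ s₂ : S.Lim) (hr : r₁ < r₂) (hs : s₁ < s₂) :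
    ∃ F, InL F ∧ F r₁ = s₁ ∧ F r₂ = s₂ := by
  obtain ⟨r₁, rfl⟩ := mkL_surj r₁
  obtain ⟨r₂, rfl⟩ := mkL_surj r₂
  obtain ⟨s₁, rfl⟩ := mkL_surj s₁
  obtain ⟨s₂, rfl⟩ := mkL_surj s₂
  rw [lt_mk] at hr hs
  obtain ⟨A, hA⟩ := hr
  obtain ⟨B, hB⟩ := hs
  obtain ⟨C1, hC1⟩ := r₁.2
  obtain ⟨C2, hC2⟩ := r₂.2
  obtain ⟨C3, hC3⟩ := s₁.2
  obtain ⟨C4, hC4⟩ := s₂.2
  let N := A + B + C1 + C2 + C3 + C4
  obtain ⟨f, hfb, hf1, hf2⟩ := hS.htr N _ _ _ _ (hA N (by omega)) (hB N (by omega))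
  obtain ⟨g, hg1, hg2⟩ := exists_seqG (S := S) N f
  have hfrom : From g N := ⟨hg2, by rw [hg1]; exact hfb⟩
  have key : ∀ (x y : S.CohT), (∀ n, N ≤ n → x.1 (n + 1) = S.ι n (x.1 n)) →
      (∀ n, N ≤ n → y.1 (n + 1) = S.ι n (y.1 n)) → f (x.1 N) = y.1 N →
      act g hfrom.coh (mkL x) = mkL y := by
    intro x y hx hy h0
    rw [act_mk]
    refine (mkL_eq _ _).2 ⟨N, fun n hn => ?_⟩
    show g n (x.1 n) = y.1 n
    induction n, hn using Nat.le_induction with
    | base => rw [hg1]; exact h0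
    | succ n hn ih => rw [hg2 n hn, hx n hn, S.hE, ih, hy n hn]
  refine ⟨act g hfrom.coh, ⟨g, hfrom.coh, ⟨N, hfrom⟩, rfl⟩, ?_, ?_⟩
  · exact key _ _ (fun n hn => hC1 n (by omega)) (fun n hn => hC3 n (by omega)) hf1
  · exact key _ _ (fun n hn => hC2 n (by omega)) (fun n hn => hC4 n (by omega)) hf2

include hS in
theorem bounded (F : S.Lim ≃o S.Lim) (hF : InL F) : Bdd F := by
  obtain ⟨g, hg, ⟨N, hN⟩, rfl⟩ := hF
  obtain ⟨a, b, ha, hb⟩ := hN.2
  have d : ∀ n, S.T n := fun n => Classical.choice (hS.ne n)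
  obtain ⟨u, hu1, hu2⟩ := exists_seq (S := S) d N a
  obtain ⟨v, hv1, hv2⟩ := exists_seq (S := S) d N b
  refine ⟨mkL u, mkL v, ?_, ?_⟩
  · intro s hs
    obtain ⟨x, rfl⟩ := mkL_surj s
    rw [lt_mk] at hs
    obtain ⟨M, hM⟩ := hs
    have key : ∀ n, N ≤ n → ∀ t, t < u.1 n → g n t = t := by
      intro n hn
      induction n, hn using Nat.le_induction with
      | base => rw [hu1]; exact ha
      | succ n hn ih => rw [hu2 n hn, hN.1 n hn]; exact hS.hlt n _ _ ih
    rw [act_mk]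
    exact (mkL_eq _ _).2 ⟨max N M, fun n hn => key n (le_trans (le_max_left _ _) hn) _
      (hM n (le_trans (le_max_right _ _) hn))⟩
  · intro s hs
    obtain ⟨x, rfl⟩ := mkL_surj s
    rw [lt_mk] at hs
    obtain ⟨M, hM⟩ := hs
    have key : ∀ n, N ≤ n → ∀ t, v.1 n < t → g n t = t := by
      intro n hn
      induction n, hn using Nat.le_induction with
      | base => rw [hv1]; exact hb
      | succ n hn ih => rw [hv2 n hn, hN.1 n hn]; exact hS.hgt n _ _ ih
    rw [act_mk]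
    exact (mkL_eq _ _).2 ⟨max N M, fun n hn => key n (le_trans (le_max_left _ _) hn) _
      (hM n (le_trans (le_max_right _ _) hn))⟩

include hS in
theorem act_ne_one {g : ∀ n, S.T n ≃o S.T n} {N : ℕ} (hN : From g N) (h : g N ≠ 1) :
    act g hN.coh ≠ 1 := by
  intro hcon
  obtain ⟨t, ht⟩ : ∃ t, g N t ≠ t := by
    by_contra hc
    push Not at hc
    exact h (by ext t; exact hc t)
  have d : ∀ n, S.T n := fun n => Classical.choice (hS.ne n)
  obtain ⟨x, hx1, hx2⟩ := exists_seq (S := S) d N t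
  have h1 := DFunLike.congr_fun hcon (mkL x)
  rw [act_mk] at h1
  obtain ⟨M, hM⟩ := (mkL_eq _ _).1 h1
  have key : ∀ n, N ≤ n → g n (x.1 n) ≠ x.1 n := by
    intro n hn
    induction n, hn using Nat.le_induction with
    | base => rw [hx1]; exact ht
    | succ n hn ih =>
      rw [hx2 n hn, hN.1 n hn, S.hE]
      exact fun h => ih ((S.hι n).injective h)
  exact key (max N M) (le_max_left _ _) (hM _ (le_max_right _ _))

include hS in
theorem no_prime (F : S.Lim ≃o S.Lim) (hF : InL F) (hpos : ∀ t, t ≤ F t) (h1 : F ≠ 1) :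
    ∃ F₁ F₂, InL F₁ ∧ InL F₂ ∧ F₁ ≠ 1 ∧ F₂ ≠ 1 ∧ (∀ t, min (F₁ t) (F₂ t) = t) ∧
      ∀ t, max (F₁ t) (F₂ t) = F t := by
  obtain ⟨g, hg, ⟨N, hN⟩, rfl⟩ := hF
  have d : ∀ n, S.T n := fun n => Classical.choice (hS.ne n)
  have hgpos : ∀ t, t ≤ g N t := by
    intro t
    by_contra hcon
    push Not at hcon
    obtain ⟨x, hx1, hx2⟩ := exists_seq (S := S) d N t
    have h2 := hpos (mkL x)
    rw [act_mk] at h2
    obtain ⟨M, hM⟩ := (le_mk _ _).1 h2
    have key : ∀ n, N ≤ n → g n (x.1 n) < x.1 n := by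
      intro n hn
      induction n, hn using Nat.le_induction with
      | base => rw [hx1]; exact hcon
      | succ n hn ih =>
        rw [hx2 n hn, hN.1 n hn, S.hE]
        exact S.hι n ih
    exact absurd (key (max N M) (le_max_left _ _)) (not_lt.2 (hM _ (le_max_right _ _)))
  have hg1 : g N ≠ 1 := by
    intro hcon
    apply h1
    have key : ∀ n, N ≤ n → g n = 1 := by
      intro n hn
      induction n, hn using Nat.le_induction with
      | base => exact hcon
      | succ n hn ih => rw [hN.1 n hn, ih, map_one]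
    apply lim_ext
    intro x
    rw [act_mk]
    refine (mkL_eq _ _).2 ⟨N, fun n hn => ?_⟩
    show g n (x.1 n) = x.1 n
    rw [key n hn]; rfl
  obtain ⟨a, b, hab, hbb, ha1, hb1, hmin, hmax⟩ := hS.hsplit N (g N) hgpos hg1 hN.2
  obtain ⟨p, hp1, hp2⟩ := exists_seqG (S := S) (N + 1) a
  obtain ⟨q, hq1, hq2⟩ := exists_seqG (S := S) (N + 1) b
  have hfp : From p (N + 1) := ⟨hp2, by rw [hp1]; exact hab⟩
  have hfq : From q (N + 1) := ⟨hq2, by rw [hq1]; exact hbb⟩
  have kmin : ∀ n, N + 1 ≤ n → ∀ t, (1 : S.T n ≃o S.T n) t = min (p n t) (q n t) := by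
    intro n hn
    induction n, hn using Nat.le_induction with
    | base => intro t; rw [hp1, hq1, hmin]; rfl
    | succ n hn ih =>
      intro t
      have := hS.hinf n (p n) (q n) 1 ih t
      rw [map_one] at this
      rw [hp2 n hn, hq2 n hn]; exact this
  have kmax : ∀ n, N + 1 ≤ n → ∀ t, g n t = max (p n t) (q n t) := by
    intro n hn
    induction n, hn using Nat.le_induction with
    | base => intro t; rw [hp1, hq1, hmax, hN.1 N le_rfl]
    | succ n hn ih =>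
      intro t
      have := hS.hsup n (p n) (q n) (g n) ih t
      rw [hp2 n hn, hq2 n hn, hN.1 n (by omega)]; exact this
  refine ⟨act p hfp.coh, act q hfq.coh, ⟨p, _, ⟨_, hfp⟩, rfl⟩, ⟨q, _, ⟨_, hfq⟩, rfl⟩,
    act_ne_one hS hfp (by rw [hp1]; exact ha1), act_ne_one hS hfq (by rw [hq1]; exact hb1), ?_, ?_⟩
  · intro s
    obtain ⟨x, rfl⟩ := mkL_surj s
    rw [act_mk, act_mk]
    exact (min_mk _ _ _ ⟨N + 1, fun n hn => kmin n hn (x.1 n)⟩).symm
  · intro s
    obtain ⟨x, rfl⟩ := mkL_surj s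
    rw [act_mk, act_mk, act_mk]
    exact (max_mk _ _ _ ⟨N + 1, fun n hn => kmax n hn (x.1 n)⟩).symm

include hS in
theorem three_points : ∃ a b c : S.Lim, a < b ∧ b < c := by
  obtain ⟨a, b, c, hab, hbc⟩ := hS.three
  have d : ∀ n, S.T n := fun n => Classical.choice (hS.ne n)
  obtain ⟨x, hx1, hx2⟩ := exists_seq (S := S) d 0 a
  obtain ⟨y, hy1, hy2⟩ := exists_seq (S := S) d 0 b
  obtain ⟨z, hz1, hz2⟩ := exists_seq (S := S) d 0 c
  refine ⟨mkL x, mkL y, mkL z, (lt_mk _ _).2 ⟨0, ?_⟩, (lt_mk _ _).2 ⟨0, ?_⟩⟩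
  · exact lt_propagate _ _ 0 hx2 hy2 (by rw [hx1, hy1]; exact hab)
  · exact lt_propagate _ _ 0 hy2 hz2 (by rw [hy1, hz1]; exact hbc)

end

/-! ### the iterated ultrapowers of the rationals -/

/-- a chain -/
structure Chn where
  T : Type
  lo : LinearOrder T

attribute [instance] Chn.lo

/-- the ultrapower of a chain -/
noncomputable def nx (c : Chn) : Chn := ⟨UP c.T, inferInstance⟩

/-- the iterated ultrapowers -/
noncomputable def st : ℕ → Chn
  | 0 => ⟨ℚ, inferInstance⟩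
  | n + 1 => nx (st n)

/-- the system of the iterated ultrapowers -/
noncomputable def SS : Sys where
  T n := (st n).T
  lo n := (st n).lo
  ι n := (io : (st n).T → UP (st n).T)
  hι n := io_strictMono
  E n := (E : ((st n).T ≃o (st n).T) →* (UP (st n).T ≃o UP (st n).T))
  hE n f t := E_io f t

theorem up_sup {T : Type} [LinearOrder T] (f g k : T ≃o T) (h : ∀ t, k t = max (f t) (g t))
    (s : UP T) : E k s = max (E f s) (E g s) := by
  induction s using Filter.Germ.inductionOn with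
  | _ s =>
    rw [E_apply, E_apply, E_apply]
    rcases le_total ((fun n => f (s n) : ℕ → T) : UP T) ((fun n => g (s n) : ℕ → T) : UP T) with h1 | h1
    · rw [max_eq_right h1]
      apply Filter.Germ.coe_eq.2
      filter_upwards [Filter.Germ.coe_le.1 h1] with n hn
      rw [h, max_eq_right hn]
    · rw [max_eq_left h1]
      apply Filter.Germ.coe_eq.2
      filter_upwards [Filter.Germ.coe_le.1 h1] with n hn
      rw [h, max_eq_left hn]

theorem up_inf {T : Type} [LinearOrder T] (f g k : T ≃o T) (h : ∀ t, k t = min (f t) (g t))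
    (s : UP T) : E k s = min (E f s) (E g s) := by
  induction s using Filter.Germ.inductionOn with
  | _ s =>
    rw [E_apply, E_apply, E_apply]
    rcases le_total ((fun n => f (s n) : ℕ → T) : UP T) ((fun n => g (s n) : ℕ → T) : UP T) with h1 | h1
    · rw [min_eq_left h1]
      apply Filter.Germ.coe_eq.2
      filter_upwards [Filter.Germ.coe_le.1 h1] with n hn
      rw [h, min_eq_left hn]
    · rw [min_eq_right h1]
      apply Filter.Germ.coe_eq.2
      filter_upwards [Filter.Germ.coe_le.1 h1] with n hn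
      rw [h, min_eq_right hn]

theorem st_nonempty (n : ℕ) : Nonempty (st n).T := by
  induction n with
  | zero => exact ⟨(0 : ℚ)⟩
  | succ n ih =>
    obtain ⟨t⟩ := ih
    exact ⟨(io t : UP (st n).T)⟩

theorem st_twoTr (n : ℕ) : TwoTr (st n).T := by
  induction n with
  | zero => exact twoTr_rat
  | succ n ih => exact twoTr_UP ih

theorem good : Good SS where
  ne := st_nonempty
  three := ⟨(0 : ℚ), (1 : ℚ), (2 : ℚ), (zero_lt_one : (0 : ℚ) < 1), (one_lt_two : (1 : ℚ) < 2)⟩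
  hlt n f t h s hs := E_fix_lt f t h s hs
  hgt n f t h s hs := E_fix_gt f t h s hs
  htr := st_twoTr
  hsup n f g k h s := up_sup f g k h s
  hinf n f g k h s := up_inf f g k h s
  hsplit n f hf h1 hb := split f hf h1 hb

end Pool.Agent.H67L
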